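import Pool.Agent.H242R3.ES.Stmts

/-! ES-SUM: the solid angles of the link add up to one. -/

set_option autoImplicit false
set_option maxHeartbeats 4000000

open MeasureTheory Finset
open scoped Classical

namespace Pool.Agent.H214R3.ESSum

open Pool.Agent.H242R3.ES

/-- `s ≃ s.map f` -/
noncomputable def eqv {κ ι : Type} (f : κ ↪ ι) (s : Finset κ) : s ≃ (s.map f : Finset ι) :=
  Equiv.ofBijective (fun i => ⟨f i, Finset.mem_map_of_mem f i.2⟩)
    ⟨fun _ _ h => Subtype.ext (f.injective (congrArg Subtype.val h)), fun b => by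
      obtain ⟨a, ha, hab⟩ := Finset.mem_map.1 b.2
      exact ⟨⟨a, ha⟩, Subtype.ext hab⟩⟩

theorem eqv_val {κ ι : Type} (f : κ ↪ ι) (s : Finset κ) (i : s) :
    ((eqv f s i : (s.map f : Finset ι)) : ι) = f i := rfl

theorem GM_sub {κ ι : Type} {m : ℕ} (f : κ ↪ ι) (s : Finset κ) (F : ι → ℝ)
    (u : κ → EuclideanSpace ℝ (Fin m))
    (h : ∀ i ∈ s, ∀ k ∈ s, inner ℝ (u i) (u k) = gm F (f i) (f k)) :
    (GM (s.map f) F).submatrix (eqv f s) (eqv f s) = GU s u := by
  ext i k
  have := h i i.2 k k.2
  simp only [Matrix.submatrix_apply, GM, GU, eqv_val]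
  exact this.symm

theorem om_map {κ ι : Type} {m : ℕ} (f : κ ↪ ι) (s : Finset κ) (F : ι → ℝ)
    (u : κ → EuclideanSpace ℝ (Fin m))
    (h : ∀ i ∈ s, ∀ k ∈ s, inner ℝ (u i) (u k) = gm F (f i) (f k)) :
    om (s.map f) F = Real.sqrt (GU s u).det *
      ∫ x in {x : s → ℝ | ∀ i, 0 ≤ x i},
        Real.exp (-Real.pi * ∑ i : s, ∑ k : s, x i * inner ℝ (u i) (u k) * x k) := by
  unfold om
  have hdet : (GM (s.map f) F).det = (GU s u).det := by
    rw [← GM_sub f s F u h, Matrix.det_submatrix_equiv_self]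
  rw [hdet]
  congr 1
  have hmp := volume_measurePreserving_piCongrLeft (fun _ : (s.map f : Finset ι) => ℝ) (eqv f s)
  have hint := hmp.setIntegral_preimage_emb (MeasurableEquiv.measurableEmbedding _)
    (ex (s.map f) F) (orth (s.map f))
  rw [← hint]
  have hap : ∀ (x : s → ℝ) (a : s),
      (MeasurableEquiv.piCongrLeft (fun _ : (s.map f : Finset ι) => ℝ) (eqv f s)) x (eqv f s a)
        = x a := by
    intro x a
    exact Equiv.piCongrLeft_apply_apply (fun _ : (s.map f : Finset ι) => ℝ) (eqv f s) x a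
  have hset : (MeasurableEquiv.piCongrLeft (fun _ : (s.map f : Finset ι) => ℝ) (eqv f s)) ⁻¹'
      orth (s.map f) = {x : s → ℝ | ∀ i, 0 ≤ x i} := by
    ext x
    simp only [Set.mem_preimage, orth, Set.mem_ofPred_eq]
    constructor
    · intro hx i
      rw [← hap x i]
      exact hx _
    · intro hx b
      obtain ⟨a, rfl⟩ := (eqv f s).surjective b
      rw [hap x a]
      exact hx a
  rw [hset]
  congr 1
  funext x
  unfold ex
  congr 2
  rw [← (eqv f s).sum_comp]
  refine Finset.sum_congr rfl fun i _ => ?_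
  rw [← (eqv f s).sum_comp]
  refine Finset.sum_congr rfl fun k _ => ?_
  rw [hap, hap, h i i.2 k k.2, eqv_val, eqv_val]

theorem t : TaskSum := by
  intro TL C1 C2 C3 P1 P3 D hD ι _ V hSP v j o hj ho hoj hno
  obtain ⟨m, κ, _, f, u, hm, hrange, hpair, hself, hcov, hfac, hmax⟩ :=
    P3 C1 C2 C3 P1 D hD ι V hSP v j o hj ho hoj hno
  set F : ι → ℝ := fun x => cc V o x / cc V o j with hF
  have hSC : SC V := ⟨hSP.vert, hSP.span, hSP.simp⟩
  -- the Gram entries
  have hG : ∀ s : Finset κ, s.map f ∈ LK V v j → ∀ i ∈ s, ∀ k ∈ s,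
      inner ℝ (u i) (u k) = gm F (f i) (f k) := by
    intro s hs i hi k hk
    by_cases hik : i = k
    · subst hik
      rw [hself i]
      unfold gm
      simp only [if_true, hF]
      ring
    · refine hpair i k hik ?_
      have h1 := (Finset.mem_filter.1 hs).2
      refine C1 ι (LV D) V hSC _ _ h1.2.2.2.1 h1.2.2.2.2 ?_
      intro x hx
      rcases hx with hx | hx
      · rw [hx]
        exact Set.mem_insert_of_mem _ (Set.mem_insert_of_mem _ (by
          simpa using hi))
      · rw [Set.mem_singleton_iff.1 hx]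
        exact Set.mem_insert_of_mem _ (Set.mem_insert_of_mem _ (by
          simpa using hk))
  -- every element of the link comes from κ
  have hsurj : ∀ s ∈ LK V v j, ∃ s' : Finset κ, s'.map f = s := by
    intro s hs
    have h1 := (Finset.mem_filter.1 hs).2
    refine ⟨Finset.univ.filter (fun k => f k ∈ s), ?_⟩
    ext x
    constructor
    · intro hx
      obtain ⟨k, hk, rfl⟩ := Finset.mem_map.1 hx
      exact (Finset.mem_filter.1 hk).2
    · intro hx
      have hxr : x ∈ Set.range f := by
        rw [hrange]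
        refine ⟨fun h => h1.1 (h ▸ hx), fun h => h1.2.1 (h ▸ hx), ?_⟩
        refine C1 ι (LV D) V hSC _ _ h1.2.2.2.1 h1.2.2.2.2 ?_
        intro y hy
        rcases hy with hy | hy | hy
        · rw [hy]; exact Set.mem_insert _ _
        · rw [hy]; exact Set.mem_insert_of_mem _ (Set.mem_insert _ _)
        · rw [Set.mem_singleton_iff.1 hy]
          exact Set.mem_insert_of_mem _ (Set.mem_insert_of_mem _ (by simpa using hx))
      obtain ⟨k, rfl⟩ := hxr
      exact Finset.mem_map_of_mem f (Finset.mem_filter.2 ⟨Finset.mem_univ _, hx⟩)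
  have hcard : ∀ s : Finset κ, s.map f ∈ LK V v j → s.card = m := by
    intro s hs
    have h1 := (Finset.mem_filter.1 hs).2
    have h2 := h1.2.2.1
    rw [Finset.card_map] at h2
    omega
  refine ⟨?_, ?_⟩
  · have hTL := TL κ m (by omega) u (Finset.univ.filter fun s => s.map f ∈ LK V v j) hcov
      (fun s hs => ⟨hcard s (Finset.mem_filter.1 hs).2, hfac s (Finset.mem_filter.1 hs).2⟩)
      (fun n h1 h2 => by
        obtain ⟨s, hs, hs'⟩ := hmax n h1 h2
        exact ⟨s, Finset.mem_filter.2 ⟨Finset.mem_univ _, hs⟩, hs'⟩)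
    rw [← hTL]
    symm
    refine Finset.sum_bij (fun s _ => s.map f) ?_ ?_ ?_ ?_
    · intro s hs
      exact (Finset.mem_filter.1 hs).2
    · intro s _ s' _ h
      exact Finset.map_injective f h
    · intro s hs
      obtain ⟨s', hs'⟩ := hsurj s hs
      exact ⟨s', Finset.mem_filter.2 ⟨Finset.mem_univ _, by rw [hs']; exact hs⟩, hs'⟩
    · intro s hs
      exact (om_map f s F u (hG s (Finset.mem_filter.1 hs).2)).symm
  · intro s hs
    obtain ⟨s', rfl⟩ := hsurj s hs
    have hpd : (GU s' u).PosDef := by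
      have := Matrix.posDef_gram_of_linearIndependent (𝕜 := ℝ) (hfac s' hs).1
      exact this
    have h2 : GM (s'.map f) F = (GU s' u).submatrix (eqv f s').symm (eqv f s').symm := by
      rw [← GM_sub f s' F u (hG s' hs)]
      ext a b
      simp
    rw [h2]
    exact hpd.submatrix (eqv f s').symm.injective

end Pool.Agent.H214R3.ESSum
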